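import Pool.Agent.W177.BM.PK1

/-!
# BM-PK: the peak function
-/

set_option autoImplicit false

open Topology Filter Metric Set Polynomial MeasureTheory
open Pool.Agent.H713R3.ZA Pool.Agent.H713R2 Pool.Agent.H713R2.AR

namespace Pool.Agent.W177.BM

theorem sq_expand (K : ℕ) (w : ℕ → ℝ) (b bT : ℕ → ℂ) :
    ∑ k ∈ Finset.range K, w k * ‖b k‖ ^ 2 = ∑ k ∈ Finset.range K, w k * ‖bT k‖ ^ 2 +
      (2 * ∑ k ∈ Finset.range K, (w k : ℂ) * ((starRingEnd ℂ) (bT k) * (b k - bT k))).re +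
      ∑ k ∈ Finset.range K, w k * ‖b k - bT k‖ ^ 2 := by
  have h1 : (2 * ∑ k ∈ Finset.range K, (w k : ℂ) * ((starRingEnd ℂ) (bT k) * (b k - bT k))).re =
      ∑ k ∈ Finset.range K, w k * (2 * ((starRingEnd ℂ) (bT k) * (b k - bT k)).re) := by
    rw [show (2 : ℂ) = ((2 : ℝ) : ℂ) by norm_num, Complex.re_ofReal_mul, Complex.re_sum,
      Finset.mul_sum]
    refine Finset.sum_congr rfl fun k _ => ?_
    rw [Complex.re_ofReal_mul]
    ring
  rw [h1, ← Finset.sum_add_distrib, ← Finset.sum_add_distrib]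
  refine Finset.sum_congr rfl fun k _ => ?_
  have h2 : ‖b k‖ ^ 2 = ‖bT k‖ ^ 2 + 2 * ((starRingEnd ℂ) (bT k) * (b k - bT k)).re +
      ‖b k - bT k‖ ^ 2 := by
    rw [← Complex.normSq_eq_norm_sq, ← Complex.normSq_eq_norm_sq, ← Complex.normSq_eq_norm_sq]
    simp only [Complex.normSq_apply, Complex.mul_re, Complex.conj_re, Complex.conj_im,
      Complex.sub_re, Complex.sub_im]
    ring
  rw [h2]
  ring

theorem sq_sub_le (K : ℕ) {w : ℕ → ℝ} (hw : ∀ k, 0 ≤ w k) (b bT : ℕ → ℂ) :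
    ∑ k ∈ Finset.range K, w k * ‖b k - bT k‖ ^ 2 ≤
      2 * (∑ k ∈ Finset.range K, w k * ‖b k‖ ^ 2 + ∑ k ∈ Finset.range K, w k * ‖bT k‖ ^ 2) := by
  rw [← Finset.sum_add_distrib, Finset.mul_sum]
  refine Finset.sum_le_sum fun k _ => ?_
  have h1 : ‖b k - bT k‖ ^ 2 ≤ 2 * (‖b k‖ ^ 2 + ‖bT k‖ ^ 2) := by
    have h2 := norm_sub_le (b k) (bT k)
    have h3 : ‖b k - bT k‖ ^ 2 ≤ (‖b k‖ + ‖bT k‖) ^ 2 := pow_le_pow_left₀ (norm_nonneg _) h2 2
    nlinarith [sq_nonneg (‖b k‖ - ‖bT k‖)]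
  calc w k * ‖b k - bT k‖ ^ 2 ≤ w k * (2 * (‖b k‖ ^ 2 + ‖bT k‖ ^ 2)) :=
        mul_le_mul_of_nonneg_left h1 (hw k)
    _ = 2 * (w k * ‖b k‖ ^ 2 + w k * ‖bT k‖ ^ 2) := by ring

/-- closeness of two exterior maps near infinity -/
theorem tail_bound {F FT : ℂ → ℂ} {s s' ρM σ : ℝ} {K : ℕ} (hs' : 0 < s') (hlt : s' < s)
    (hF : DifferentiableOn ℂ F (ball 0 s)) (hFT : DifferentiableOn ℂ FT (ball 0 s))
    (hF0 : F 0 = 1) (hFT0 : FT 0 = 1) (hρ : s'⁻¹ ≤ ρM) (hσ : 0 ≤ σ)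
    (h1 : ∀ k, ‖tc F (k + 2)‖ * s' ^ (k + 2) ≤ 1) (h2 : ∀ k, ‖tc FT (k + 2)‖ * s' ^ (k + 2) ≤ 1)
    (h3 : ∀ k < K, ‖tc F (k + 2) - tc FT (k + 2)‖ * s' ^ (k + 2) ≤ σ) {w : ℂ}
    (hw : 4 * ρM ≤ ‖w‖) :
    ‖w * F w⁻¹ - w * FT w⁻¹ - (tc F 1 - tc FT 1)‖ ≤ ρM * (σ + (1 / 2) ^ K) := by
  have hsi : 0 < s'⁻¹ := inv_pos.2 hs'
  have hρ0 : 0 < ρM := hsi.trans_le hρ
  have hw0 : 0 < ‖w‖ := by linarith
  have hwne : w ≠ 0 := norm_pos_iff.1 hw0
  have hwi : ‖w⁻¹‖ ≤ s' / 4 := by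
    rw [norm_inv]
    have : ‖w‖⁻¹ ≤ (4 * s'⁻¹)⁻¹ := inv_anti₀ (by positivity) (by linarith)
    rwa [mul_inv, inv_inv, mul_comm, ← div_eq_mul_inv] at this
  have hwb : w⁻¹ ∈ ball (0 : ℂ) s := by
    rw [mem_ball_zero_iff]
    linarith
  have h5 := (hasSum_tc hF hwb).sub (hasSum_tc hFT hwb)
  have h6 := (hasSum_nat_add_iff' 2).2 h5
  rw [Finset.sum_range_succ, Finset.sum_range_one, tc_zero, tc_zero, hF0, hFT0] at h6
  have h7 := h6.mul_left w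
  have e2 : w * (F w⁻¹ - FT w⁻¹ - (1 * w⁻¹ ^ 0 - 1 * w⁻¹ ^ 0 +
      (tc F 1 * w⁻¹ ^ 1 - tc FT 1 * w⁻¹ ^ 1))) =
      w * F w⁻¹ - w * FT w⁻¹ - (tc F 1 - tc FT 1) := by
    field_simp
    ring
  rw [e2] at h7
  rw [← h7.tsum_eq]
  have hle : ∀ k : ℕ, ‖w * (tc F (k + 2) * w⁻¹ ^ (k + 2) - tc FT (k + 2) * w⁻¹ ^ (k + 2))‖ ≤
      (ρM * (σ + (1 / 2) ^ K)) * ((1 / 2 : ℝ) / 2 ^ k) := by
    intro k
    have e3 : w * (tc F (k + 2) * w⁻¹ ^ (k + 2) - tc FT (k + 2) * w⁻¹ ^ (k + 2)) =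
        (tc F (k + 2) - tc FT (k + 2)) * w⁻¹ ^ (k + 1) := by
      rw [pow_succ w⁻¹ (k + 1)]
      field_simp
    rw [e3, norm_mul, norm_pow]
    set Δ : ℝ := ‖tc F (k + 2) - tc FT (k + 2)‖ with hΔ
    have hΔ0 : 0 ≤ Δ := norm_nonneg _
    have h8 : Δ * ‖w⁻¹‖ ^ (k + 1) ≤ s'⁻¹ * (Δ * s' ^ (k + 2)) * ((1 / 2) ^ (k + 1) * (1 / 2) ^ (k + 1)) := by
      calc Δ * ‖w⁻¹‖ ^ (k + 1) ≤ Δ * (s' / 4) ^ (k + 1) :=
            mul_le_mul_of_nonneg_left (pow_le_pow_left₀ (norm_nonneg _) hwi _) hΔ0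
        _ = s'⁻¹ * (Δ * s' ^ (k + 2)) * ((1 / 2) ^ (k + 1) * (1 / 2) ^ (k + 1)) := by
            rw [← mul_pow, div_eq_mul_one_div s' 4, mul_pow, pow_succ s' (k + 1)]
            norm_num
            field_simp
    refine h8.trans ?_
    have h9 : (Δ * s' ^ (k + 2)) * (1 / 2) ^ (k + 1) ≤ σ + (1 / 2) ^ K := by
      have hp : (0 : ℝ) ≤ (1 / 2) ^ (k + 1) := by positivity
      have hpK : (0 : ℝ) ≤ (1 / 2) ^ K := by positivity
      have hp1 : (1 / 2 : ℝ) ^ (k + 1) ≤ 1 := pow_le_one₀ (by norm_num) (by norm_num)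
      rcases lt_or_ge k K with hk | hk
      · have := h3 k hk
        calc (Δ * s' ^ (k + 2)) * (1 / 2) ^ (k + 1) ≤ σ * 1 :=
              mul_le_mul this hp1 hp hσ
          _ ≤ σ + (1 / 2) ^ K := by linarith
      · have h10 : Δ * s' ^ (k + 2) ≤ 2 := by
          have h11 : Δ ≤ ‖tc F (k + 2)‖ + ‖tc FT (k + 2)‖ := norm_sub_le _ _
          calc Δ * s' ^ (k + 2) ≤ (‖tc F (k + 2)‖ + ‖tc FT (k + 2)‖) * s' ^ (k + 2) :=
                mul_le_mul_of_nonneg_right h11 (by positivity)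
            _ ≤ 2 := by
                have := h1 k
                have := h2 k
                linarith
        have h12 : (1 / 2 : ℝ) ^ k ≤ (1 / 2) ^ K :=
          pow_le_pow_of_le_one (by norm_num) (by norm_num) hk
        calc (Δ * s' ^ (k + 2)) * (1 / 2) ^ (k + 1) ≤ 2 * (1 / 2) ^ (k + 1) :=
              mul_le_mul_of_nonneg_right h10 hp
          _ = (1 / 2) ^ k := by rw [pow_succ]; ring
          _ ≤ σ + (1 / 2) ^ K := by linarith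
    have h13 : (1 / 2 : ℝ) ^ (k + 1) = (1 / 2 : ℝ) / 2 ^ k := by
      rw [pow_succ, one_div_pow]
      ring
    calc s'⁻¹ * (Δ * s' ^ (k + 2)) * ((1 / 2) ^ (k + 1) * (1 / 2) ^ (k + 1))
        = s'⁻¹ * ((Δ * s' ^ (k + 2)) * (1 / 2) ^ (k + 1)) * (1 / 2) ^ (k + 1) := by ring
      _ ≤ ρM * (σ + (1 / 2) ^ K) * (1 / 2) ^ (k + 1) := by
          refine mul_le_mul_of_nonneg_right ?_ (by positivity)
          exact mul_le_mul hρ h9 (by positivity) hρ0.le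
      _ = (ρM * (σ + (1 / 2) ^ K)) * ((1 / 2 : ℝ) / 2 ^ k) := by rw [h13]
  have hgeo : HasSum (fun k : ℕ => (ρM * (σ + (1 / 2) ^ K)) * ((1 / 2 : ℝ) / 2 ^ k))
      (ρM * (σ + (1 / 2) ^ K) * 1) := by
    apply HasSum.mul_left
    exact hasSum_geometric_two' 1
  have := tsum_of_norm_bounded hgeo hle
  rwa [mul_one] at this

section
variable {a : ℂ} {n : ℕ} {B Rb C₁ R₁ R₃ : ℝ} {ψ φ : PE n × ℂ → ℂ}

/-- closeness of the coefficients -/
theorem close (ha : a ≠ 0) (hn : 1 ≤ n) (hb : BO a n B Rb C₁ R₁ R₃ ψ φ) {A : ℝ}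
    (hA : ∀ x : PE n, ‖x‖ ≤ B → ∀ j, ‖(fam a n x).coeff j‖ ≤ A)
    {N : ℕ} {R R₄ s s' ρM σ S L : ℝ} {G : PE n × ℂ → ℂ} {K : ℕ} (hs' : 0 < s') (hlt : s' < s)
    (hG : W820.BM.EX a n N B R C₁ R₁ R₄ s ψ G)
    (hext : ∀ x ∈ W820.BM.OmN a n N B R, IsExt s (fun t => G (x, t)))
    (hρ : s'⁻¹ ≤ ρM) (hS1 : R₃ < S) (hS2 : 2 + A * ((n + 1 : ℕ) : ℝ) ≤ ‖a‖ * S)
    (hS3 : 4 * ρM + C₁ ≤ S) (hσ : 0 ≤ σ) (hσ2 : σ ≤ 2)
    (hL : L = ∑ j ∈ Finset.range (n + 1 + 1), A * (j * (4 * S + 2 * C₁) ^ (j - 1)))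
    {x xT : PE n} (hx : x ∈ W820.BM.OmN a n N B R) (hxT : xT ∈ W820.BM.OmN a n N B R)
    (hsum : ∑ i : Fin n, x (some i) = ∑ i : Fin n, xT (some i))
    (h1 : ∀ k, ‖tc (fun t => G (x, t)) (k + 2)‖ * s' ^ (k + 2) ≤ 1)
    (h2 : ∀ k, ‖tc (fun t => G (xT, t)) (k + 2)‖ * s' ^ (k + 2) ≤ 1)
    (h3 : ∀ k < K, ‖tc (fun t => G (x, t)) (k + 2) - tc (fun t => G (xT, t)) (k + 2)‖ *
      s' ^ (k + 2) ≤ σ) (j : ℕ) :
    ‖(fam a n x).coeff j - (fam a n xT).coeff j‖ ≤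
      (L + 1) * ((L + 1) / ‖a‖ + 1) * ρM * (σ + (1 / 2) ^ K) := by
  have k1 := hb.hR; have k2 := hb.hC; have k3 := hb.hR₁; have k4 := hb.hR₃
  have hxB : x ∈ ball (0 : PE n) B := hx.1
  have hxTB : xT ∈ ball (0 : PE n) B := hxT.1
  have hsi : 0 < s'⁻¹ := inv_pos.2 hs'
  have hρ0 : 0 < ρM := hsi.trans_le hρ
  have hS0 : 0 < S := by linarith
  have hK1 : (1 / 2 : ℝ) ^ K ≤ 1 := pow_le_one₀ (by norm_num) (by norm_num)
  have hK0 : (0 : ℝ) ≤ (1 / 2) ^ K := by positivity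
  have hkey := GAIN.key (d := n + 1) (a := a) (A₀ := A) (R := R₃) (C := 2 * C₁) (S := S)
    (by omega) ha (by linarith) (by linarith) hS1 hS2 (p := fam a n xT) (q := fam a n x)
    (Φ := far ψ φ xT x) (natDegree_fam_le a n xT) (natDegree_fam_le a n x)
    (coeff_fam_top a n xT) (coeff_fam_top a n x)
    (by rw [Nat.add_sub_cancel]; exact (coeff_n hn hsum).symm)
    (hA xT (mem_ball_zero_iff.mp hxTB).le) (hA x (mem_ball_zero_iff.mp hxB).le) (by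
      intro z hz
      have e1 := hb.ψc x hxB _ (φ_norm hb hxTB hz)
      have e2 := hb.φc xT hxTB z hz
      calc ‖far ψ φ xT x z - z‖ ≤ ‖ψ (x, φ (xT, z)) - φ (xT, z)‖ + ‖φ (xT, z) - z‖ := by
            have : far ψ φ xT x z - z = (ψ (x, φ (xT, z)) - φ (xT, z)) + (φ (xT, z) - z) := by
              unfold far; ring
            rw [this]; exact norm_add_le _ _
        _ ≤ 2 * C₁ := by linarith) (by
      intro z hz hz'
      have e1 := φ_fx hb hxTB hz hz'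
      show fx a n x (ψ (x, φ (xT, z))) = ψ (x, φ (xT, fx a n xT z))
      rw [hb.fe x hxB _ (φ_norm hb hxTB hz), e1]
      rfl) (c := tc (fun t => G (x, t)) 1 - tc (fun t => G (xT, t)) 1)
    (s := ρM * (σ + (1 / 2) ^ K) / S) (by positivity) (by
      rw [div_le_one hS0]
      have : ρM * (σ + (1 / 2) ^ K) ≤ ρM * 3 := mul_le_mul_of_nonneg_left (by linarith) hρ0.le
      linarith) (by
      intro z hz
      rw [mul_div_cancel₀ _ hS0.ne']
      have hz3 : R₃ < ‖z‖ := by linarith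
      set w := φ (xT, z) with hw
      have hw1 : R₁ < ‖w‖ := φ_norm hb hxTB hz3
      have hw2 := hb.φc xT hxTB z hz3
      have hw3 : ‖z‖ - ‖w‖ ≤ C₁ := by
        have := norm_sub_norm_le z w
        rw [norm_sub_rev] at this
        exact this.trans hw2
      have hw4 : 4 * ρM ≤ ‖w‖ := by linarith
      have hw0 : 0 < ‖w‖ := by linarith
      have hwne : w ≠ 0 := norm_pos_iff.1 hw0
      have hwi : w⁻¹ ≠ 0 := inv_ne_zero hwne
      have hwin : ‖w⁻¹‖ < s := by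
        rw [norm_inv]
        have : ‖w‖⁻¹ ≤ (s'⁻¹)⁻¹ := inv_anti₀ hsi (by linarith)
        rw [inv_inv] at this
        linarith
      have n1 := hG.near x hx w⁻¹ hwi hwin (by rw [inv_inv]; exact hw1)
      have n2 := hG.near xT hxT w⁻¹ hwi hwin (by rw [inv_inv]; exact hw1)
      rw [inv_inv] at n1 n2
      have n3 : ψ (xT, w) = z := hb.ψφ xT hxTB z hz3
      have n4 := tail_bound hs' hlt (hext x hx).diff (hext xT hxT).diff (hext x hx).zero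
        (hext xT hxT).zero hρ hσ h1 h2 h3 hw4
      rw [n1, n2, n3] at n4
      exact n4) (L := L) hL j
  refine hkey.trans (le_of_eq ?_)
  field_simp

end

theorem pk (h : W820.BM.S_EXT) : W820.BM.S_PK := by
  intro a n B ha hn hB
  obtain ⟨Rb, C₁, R₁, R₃, ψ, φ, hb⟩ := exists_boett bsum_holds inv_holds ha hn hB
  obtain ⟨A, hA1, hA⟩ := exists_coeff_bound a n B
  have k1 := hb.hR; have k2 := hb.hC; have k3 := hb.hR₁; have k4 := hb.hR₃
  have ha0 : 0 < ‖a‖ := norm_pos_iff.2 ha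
  refine ⟨R₃, fun R hR => ?_⟩
  set R₄ : ℝ := R + C₁ with hR₄
  set ρ0 : ℝ := 1 / (‖a‖ + 1) with hρ0
  have hρ0p : 0 < ρ0 := by positivity
  have hρ01 : ρ0 ≤ 1 := by
    rw [hρ0, div_le_one (by positivity)]
    linarith
  have hρ0a : ‖a‖ * ρ0 ≤ 1 := by
    rw [hρ0, mul_one_div, div_le_one (by positivity)]
    linarith
  set ρM : ℝ := max R₁ (R₄ + 1) + 1 with hρM
  have hρMp : 0 < ρM := by
    have := le_max_left R₁ (R₄ + 1)
    linarith
  set S : ℝ := (R₃ + 1) + (2 + A * ((n + 1 : ℕ) : ℝ)) / ‖a‖ + 4 * ρM + C₁ with hS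
  have hq : 0 ≤ (2 + A * ((n + 1 : ℕ) : ℝ)) / ‖a‖ := by positivity
  have hS1 : R₃ < S := by linarith
  have hS2 : 2 + A * ((n + 1 : ℕ) : ℝ) ≤ ‖a‖ * S := by
    have h1 : (2 + A * ((n + 1 : ℕ) : ℝ)) / ‖a‖ ≤ S := by linarith
    rw [div_le_iff₀ ha0] at h1
    linarith
  have hS3 : 4 * ρM + C₁ ≤ S := by linarith
  have hS0 : 0 < S := by linarith
  obtain ⟨L, hL⟩ : ∃ L : ℝ, L = ∑ j ∈ Finset.range (n + 1 + 1),
      A * (j * (4 * S + 2 * C₁) ^ (j - 1)) := ⟨_, rfl⟩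
  have hL0 : 0 ≤ L := by
    rw [hL]
    exact Finset.sum_nonneg fun j _ => by positivity
  set C₄ : ℝ := (L + 1) * ((L + 1) / ‖a‖ + 1) * ρM with hC₄
  have hC₄0 : 0 < C₄ := by positivity
  refine ⟨C₄ * (1 / ρ0 + 1), by positivity, fun xT hxT hKJ => ⟨KJ_fin hb hxT, fun η hη => ?_⟩⟩
  set M0 : ℝ := (volume (KJ (fam a n xT))).toReal with hM0
  have hM00 : 0 ≤ M0 := ENNReal.toReal_nonneg
  obtain ⟨N, hN⟩ := exists_vol hb hxT (show 0 < η / 4 by positivity) (R₄ + 1 + C₁)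
  obtain ⟨ρ4, ρ5, hr1, hr2, hr3, hr4, hr5⟩ := exists_radii hb hn (show 1 < R₄ by linarith) hρ01
    hρ0a N
  have hρ4 : 0 < ρ4 := by linarith
  have hρ5 : 0 < ρ5 := by linarith
  set s : ℝ := ρ4⁻¹ with hs
  set s' : ℝ := ρ5⁻¹ with hs'
  have hs0 : 0 < s := inv_pos.2 hρ4
  have hs'0 : 0 < s' := inv_pos.2 hρ5
  have hlt : s' < s := (inv_lt_inv₀ hρ5 hρ4).2 hr2
  have hnorm : ∀ {ρ : ℝ}, 0 < ρ → ‖(fun w : ℂ => a * w ^ (n + 1))^[N] (((ρ⁻¹ : ℝ) : ℂ)⁻¹)‖ =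
      (qm a n)^[N] ρ := by
    intro ρ hρ
    rw [norm_QQ, norm_inv, Complex.norm_real, Real.norm_eq_abs, abs_of_pos (inv_pos.2 hρ), inv_inv]
  obtain ⟨G, hG⟩ := h a n N B Rb C₁ R₁ R₃ R R₄ s ψ φ ha hn hb hR le_rfl hs0
    (by rw [hs, hnorm hρ4, hr4])
  set Om := W820.BM.OmN a n N B R with hOm
  have hOo : IsOpen Om := isOpen_OmN a n N B R
  have hxTO : xT ∈ Om := ⟨hxT, fun i j _ _ => by
    have h1 : fx a n xT = fun w => (fam a n xT).eval w := rfl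
    have h2 := lt_of_mem_KJ hb hxT (hKJ i) j
    linarith⟩
  have hext : ∀ x ∈ Om, IsExt s (fun t => G (x, t)) := by
    intro x hx
    refine ⟨?_, hG.zero x hx, ?_⟩
    · exact hG.diff.comp (by fun_prop) fun t ht => ⟨hx, ht⟩
    · intro t ht u hu ht0 hu0 htu
      exact hG.inj x hx t ht u hu ht0 hu0 htu
  set b : PE n → ℕ → ℂ := fun x k => tc (fun t => G (x, t)) (k + 2) with hbdef
  set w : ℕ → ℝ := fun k => ((k : ℝ) + 1) * s' ^ (2 * (k + 2)) with hw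
  have hw0 : ∀ k, 0 ≤ w k := fun k => by
    rw [hw]
    positivity
  set V : PE n → ℝ := fun x => (volume (UU (fun t => G (x, t)) s')ᶜ).toReal with hV
  have hV0 : ∀ x, 0 ≤ V x := fun x => ENNReal.toReal_nonneg
  have harea : ∀ x ∈ Om, HasSum (fun k => w k * ‖b x k‖ ^ 2) (1 - s' ^ 2 / Real.pi * V x) := by
    intro x hx
    have h1 := (area2 hs'0 hlt (hext x hx)).2
    refine h1.congr_fun fun k => ?_
    rw [hw, hbdef]
    ring
  have hpi := Real.pi_pos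
  have hu1 : ∀ x ∈ Om, ∀ K : ℕ, ∑ k ∈ Finset.range K, w k * ‖b x k‖ ^ 2 ≤ 1 := by
    intro x hx K
    have h1 := sum_le_hasSum (Finset.range K) (fun k _ => mul_nonneg (hw0 k) (sq_nonneg _))
      (harea x hx)
    have h2 : 0 ≤ s' ^ 2 / Real.pi * V x := by
      have := hV0 x
      positivity
    linarith
  have hb1 : ∀ x ∈ Om, ∀ k, ‖b x k‖ * s' ^ (k + 2) ≤ 1 := by
    intro x hx k
    have h1 := hu1 x hx (k + 1)
    have h2 : w k * ‖b x k‖ ^ 2 ≤ ∑ k ∈ Finset.range (k + 1), w k * ‖b x k‖ ^ 2 :=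
      Finset.single_le_sum (f := fun k => w k * ‖b x k‖ ^ 2)
        (fun k _ => mul_nonneg (hw0 k) (sq_nonneg _)) (Finset.self_mem_range_succ k)
    have h3 : (‖b x k‖ * s' ^ (k + 2)) ^ 2 ≤ w k * ‖b x k‖ ^ 2 := by
      rw [mul_pow, ← pow_mul, mul_comm (k + 2) 2, hw]
      have h4 : 0 ≤ ‖b x k‖ ^ 2 * s' ^ (2 * (k + 2)) := by positivity
      have h5 : (0 : ℝ) ≤ k := Nat.cast_nonneg k
      show ‖b x k‖ ^ 2 * s' ^ (2 * (k + 2)) ≤ ((k : ℝ) + 1) * s' ^ (2 * (k + 2)) * ‖b x k‖ ^ 2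
      nlinarith
    have h4 : (‖b x k‖ * s' ^ (k + 2)) ^ 2 ≤ 1 ^ 2 := by linarith
    exact (abs_le_of_sq_le_sq' h4 zero_le_one).2
  -- the area at `xT`
  have hVT : V xT ≤ M0 + η / 4 := by
    have h1 : (UU (fun t => G (xT, t)) s')ᶜ ⊆ {z : ℂ | ‖(fx a n xT)^[N] z‖ ≤ R₄ + 1 + C₁} := by
      intro z hz
      rw [mem_ofPred_eq]
      by_contra hcon
      rw [not_le] at hcon
      apply hz
      obtain ⟨t, ht1, ht2, ht3⟩ := hG.surj xT hxTO s' z hs'0 hlt.le (by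
        rw [hs', hnorm hρ5, hr5]
        exact hcon)
      exact ⟨t, ⟨ht1, ht2⟩, ht3⟩
    have h2 := (measure_mono (μ := (volume : Measure ℂ)) h1).trans hN
    have h3 := KJ_fin hb hxT
    have h4 : volume (KJ (fam a n xT)) + ENNReal.ofReal (η / 4) = ENNReal.ofReal (M0 + η / 4) := by
      rw [ENNReal.ofReal_add hM00 (by positivity), hM0, ENNReal.ofReal_toReal h3.ne]
    rw [h4] at h2
    exact ENNReal.toReal_le_of_le_ofReal (by positivity) h2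
  -- the truncation
  obtain ⟨K, hK1, hK2⟩ : ∃ K : ℕ, 1 - ∑ k ∈ Finset.range K, w k * ‖b xT k‖ ^ 2 ≤
      s' ^ 2 / Real.pi * (M0 + η / 2) ∧ (1 / 2 : ℝ) ^ K ≤ Real.sqrt (η / 2) := by
    have h1 := (harea xT hxTO).tendsto_sum_nat
    have h2 : 1 - s' ^ 2 / Real.pi * (M0 + η / 2) < 1 - s' ^ 2 / Real.pi * V xT := by
      have h3 : 0 < s' ^ 2 / Real.pi := by positivity
      have h4 : V xT < M0 + η / 2 := by linarith
      have := mul_lt_mul_of_pos_left h4 h3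
      linarith
    have h3 := h1.eventually_const_lt h2
    have h4 : Tendsto (fun K : ℕ => (1 / 2 : ℝ) ^ K) atTop (𝓝 0) :=
      tendsto_pow_atTop_nhds_zero_of_lt_one (by norm_num) (by norm_num)
    have h5 := h4.eventually_lt_const (show 0 < Real.sqrt (η / 2) from
      Real.sqrt_pos.2 (by positivity))
    obtain ⟨K, h6, h7⟩ := (h3.and h5).exists
    exact ⟨K, by linarith, h7.le⟩
  -- the function
  set c : ℝ := Real.pi / s' ^ 2 with hc
  have hc0 : 0 < c := by positivity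
  have hcs : s' ^ 2 / Real.pi * c = 1 := by
    rw [hc]
    field_simp
  set f : PE n → ℂ := fun x => (c : ℂ) * (2 * ∑ k ∈ Finset.range K,
    (w k : ℂ) * ((starRingEnd ℂ) (b xT k) * (b x k - b xT k))) with hf
  refine ⟨N, f, hOo, hxTO, ?_, ?_, ?_⟩
  · refine DifferentiableOn.const_mul (DifferentiableOn.const_mul
      (DifferentiableOn.fun_sum fun k _ => DifferentiableOn.const_mul
        (DifferentiableOn.const_mul (DifferentiableOn.sub_const ?_ _) _) _) _) _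
    exact tc_diff hOo hs0 hG.diff (k + 2)
  · rw [hf]
    simp
  · intro x hx hsum
    set v : ℝ := ∑ k ∈ Finset.range K, w k * ‖b x k - b xT k‖ ^ 2 with hv
    have hv0 : 0 ≤ v := Finset.sum_nonneg fun k _ => mul_nonneg (hw0 k) (sq_nonneg _)
    have hv4 : v ≤ 4 := by
      have h1 := sq_sub_le K hw0 (b x) (b xT)
      have h2 := hu1 x hx K
      have h3 := hu1 xT hxTO K
      linarith
    have hre : (f x).re = c * (2 * ∑ k ∈ Finset.range K,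
        (w k : ℂ) * ((starRingEnd ℂ) (b xT k) * (b x k - b xT k))).re := by
      rw [hf, Complex.re_ofReal_mul]
    have hmain : (f x).re ≤ M0 + η / 2 - c * v := by
      have h1 := sq_expand K w (b x) (b xT)
      have h2 := hu1 x hx K
      rw [hre]
      have h3 : (2 * ∑ k ∈ Finset.range K,
          (w k : ℂ) * ((starRingEnd ℂ) (b xT k) * (b x k - b xT k))).re ≤
          s' ^ 2 / Real.pi * (M0 + η / 2) - v := by linarith
      have h4 := mul_le_mul_of_nonneg_left h3 hc0.le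
      have h5 : c * (s' ^ 2 / Real.pi * (M0 + η / 2) - v) = M0 + η / 2 - c * v := by
        have : c * (s' ^ 2 / Real.pi * (M0 + η / 2) - v) =
            (s' ^ 2 / Real.pi * c) * (M0 + η / 2) - c * v := by ring
        rw [this, hcs, one_mul]
      rw [h5] at h4
      exact h4
    have hcv : 0 ≤ c * v := mul_nonneg hc0.le hv0
    refine ⟨by linarith, fun j => ?_⟩
    set T : ℝ := M0 + η - (f x).re with hT
    have hT2 : η / 2 ≤ T := by linarith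
    have hT0 : 0 ≤ T := by linarith
    have h1 := close ha hn hb hA hs'0 hlt hG hext (ρM := ρM) (σ := Real.sqrt v) (K := K)
      (by rw [hs', inv_inv]; exact hr3) hS1 hS2 hS3 (Real.sqrt_nonneg _) (by
        rw [show (2 : ℝ) = Real.sqrt 4 by
          rw [show (4 : ℝ) = 2 ^ 2 by norm_num, Real.sqrt_sq (by norm_num)]]
        exact Real.sqrt_le_sqrt hv4) hL hx hxTO hsum (hb1 x hx) (hb1 xT hxTO) (by
        intro k hk
        have h2 : w k * ‖b x k - b xT k‖ ^ 2 ≤ v :=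
          Finset.single_le_sum (f := fun k => w k * ‖b x k - b xT k‖ ^ 2)
            (fun k _ => mul_nonneg (hw0 k) (sq_nonneg _)) (Finset.mem_range.2 hk)
        apply Real.le_sqrt_of_sq_le
        refine le_trans ?_ h2
        rw [mul_pow, ← pow_mul, mul_comm (k + 2) 2]
        show ‖b x k - b xT k‖ ^ 2 * s' ^ (2 * (k + 2)) ≤
          ((k : ℝ) + 1) * s' ^ (2 * (k + 2)) * ‖b x k - b xT k‖ ^ 2
        have h4 : 0 ≤ ‖b x k - b xT k‖ ^ 2 * s' ^ (2 * (k + 2)) := by positivity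
        have h5 : (0 : ℝ) ≤ k := Nat.cast_nonneg k
        nlinarith) j
    refine h1.trans ?_
    rw [mul_assoc C₄]
    refine mul_le_mul_of_nonneg_left ?_ hC₄0.le
    have h2 : Real.sqrt v ≤ 1 / ρ0 * Real.sqrt T := by
      have h3 : v ≤ (1 / ρ0) ^ 2 * T := by
        have h4 : c * v ≤ T := by linarith
        have h5 : v = (s' ^ 2 / Real.pi) * (c * v) := by
          rw [← mul_assoc, hcs, one_mul]
        have h6 : s' ^ 2 / Real.pi ≤ (1 / ρ0) ^ 2 := by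
          have h7 : s' ≤ 1 / ρ0 := by
            rw [hs', one_div]
            exact inv_anti₀ hρ0p (by linarith)
          have h8 : s' ^ 2 ≤ (1 / ρ0) ^ 2 := pow_le_pow_left₀ hs'0.le h7 2
          have h9 : s' ^ 2 / Real.pi ≤ s' ^ 2 :=
            div_le_self (by positivity) (by linarith [Real.pi_gt_three])
          exact h9.trans h8
        rw [h5]
        exact mul_le_mul h6 h4 hcv (by positivity)
      calc Real.sqrt v ≤ Real.sqrt ((1 / ρ0) ^ 2 * T) := Real.sqrt_le_sqrt h3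
        _ = 1 / ρ0 * Real.sqrt T := by
            rw [Real.sqrt_mul (by positivity), Real.sqrt_sq (by positivity)]
    have h3 : (1 / 2 : ℝ) ^ K ≤ Real.sqrt T := hK2.trans (Real.sqrt_le_sqrt hT2)
    calc Real.sqrt v + (1 / 2) ^ K ≤ 1 / ρ0 * Real.sqrt T + Real.sqrt T := add_le_add h2 h3
      _ = (1 / ρ0 + 1) * Real.sqrt T := by ring

end Pool.Agent.W177.BM
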