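import Pool.Agent.W820.BM.Stm
import Pool.Agent.H713R3.ZA.TBSUM
import Pool.Agent.H713R3.ZA.TINV
import Pool.Agent.H713R3.ZA.TGAIN
import Pool.Agent.H713R3.ZA.Mot3
import Pool.Agent.H713R2.AR.AF5

/-!
# BM-PK, part 1: area formula, holomorphic coefficients, model map, volumes
-/

set_option autoImplicit false

open Topology Filter Metric Set Polynomial MeasureTheory
open Pool.Agent.H713R3.ZA Pool.Agent.H713R2 Pool.Agent.H713R2.AR

namespace Pool.Agent.W177.BM

/-- the area formula for the exterior map itself -/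
theorem area2 {g : ℂ → ℂ} {s s' : ℝ} (hs' : 0 < s') (hlt : s' < s) (hg : IsExt s g) :
    volume (UU g s')ᶜ < ⊤ ∧
    HasSum (fun k : ℕ => ((k : ℝ) + 1) * (‖tc g (k + 2)‖ ^ 2 * s' ^ (2 * (k + 2))))
      (1 - s' ^ 2 / Real.pi * (volume (UU g s')ᶜ).toReal) := by
  obtain ⟨hsum, hint⟩ := area_formula hs' hlt hg (Q := X) (D := 1) (H := g) hg.diff (by
    intro x _ hx0
    rw [eval_X, pow_one, ← mul_assoc, mul_inv_cancel₀ hx0, one_mul])
  have hone : (fun z : ℂ => ‖(derivative (X : ℂ[X])).eval z‖ ^ 2) = fun _ => (1 : ℝ) := by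
    funext z; simp
  rw [hone] at hsum hint
  have hfin : volume (UU g s')ᶜ < ⊤ := by
    rw [integrableOn_const_iff] at hint
    rcases hint with h | h
    · exact absurd h (by simp)
    · exact h
  refine ⟨hfin, ?_⟩
  set V : ℝ := (volume (UU g s')ᶜ).toReal with hV
  have hVint : ∫ _ in (UU g s')ᶜ, (1 : ℝ) = V := by
    rw [setIntegral_const, smul_eq_mul, mul_one]
    rfl
  rw [hVint] at hsum
  have h2 := (hasSum_nat_add_iff' 2).2 hsum
  rw [Finset.sum_range_succ, Finset.sum_range_one] at h2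
  have e0 : tc g 0 = 1 := by rw [tc_zero]; exact hg.zero
  rw [e0] at h2
  simp only [Nat.cast_one, Nat.cast_zero, sub_zero, norm_one, one_pow, mul_zero, pow_zero, mul_one,
    sub_self, zero_mul, add_zero] at h2
  have h4 := h2.neg
  have e1 : -(s' ^ (2 * 1) / Real.pi * V - 1) = 1 - s' ^ 2 / Real.pi * V := by ring
  rw [e1] at h4
  refine h4.congr_fun ?_
  intro k
  push_cast
  ring

/-- Taylor coefficients depend holomorphically on parameters -/
theorem tc_diff {E : Type*} [NormedAddCommGroup E] [NormedSpace ℂ E] {U : Set E} (hU : IsOpen U)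
    {G : E × ℂ → ℂ} {s : ℝ} (hs : 0 < s) (hG : DifferentiableOn ℂ G (U ×ˢ ball (0 : ℂ) s))
    (k : ℕ) : DifferentiableOn ℂ (fun x => tc (fun t => G (x, t)) k) U := by
  have hopen : IsOpen (U ×ˢ ball (0 : ℂ) s) := hU.prod isOpen_ball
  have key : ∀ k : ℕ, ∃ Gk : E × ℂ → ℂ, DifferentiableOn ℂ Gk (U ×ˢ ball (0 : ℂ) s) ∧
      ∀ x ∈ U, ∀ t ∈ ball (0 : ℂ) s, iteratedDeriv k (fun t => G (x, t)) t = Gk (x, t) := by
    intro k
    induction k with
    | zero => exact ⟨G, hG, fun x _ t _ => by simp⟩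
    | succ k ih =>
      obtain ⟨Gk, h1, h2⟩ := ih
      refine ⟨fun p => fderiv ℂ Gk p (0, 1),
        Pool.Agent.Helper540.differentiableOn_fderiv_apply hopen h1 (0, 1), ?_⟩
      intro x hx t ht
      rw [iteratedDeriv_succ]
      have h3 : iteratedDeriv k (fun t => G (x, t)) =ᶠ[𝓝 t] fun t => Gk (x, t) := by
        filter_upwards [isOpen_ball.mem_nhds ht] with t' ht'
        exact h2 x hx t' ht'
      rw [h3.deriv_eq]
      have h4 : HasFDerivAt Gk (fderiv ℂ Gk (x, t)) (x, t) :=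
        (h1.differentiableAt (hopen.mem_nhds ⟨hx, ht⟩)).hasFDerivAt
      have h5 : HasDerivAt (fun t : ℂ => (x, t)) ((0 : E), (1 : ℂ)) t :=
        (hasDerivAt_const t x).prodMk (hasDerivAt_id t)
      exact (h4.comp_hasDerivAt t h5).deriv
  obtain ⟨Gk, h1, h2⟩ := key k
  have h3 : DifferentiableOn ℂ (fun x : E => Gk (x, 0)) U :=
    h1.comp (by fun_prop) fun x hx => ⟨hx, mem_ball_self hs⟩
  refine (h3.const_mul (((k.factorial : ℂ))⁻¹)).congr fun x hx => ?_
  rw [tc, h2 x hx 0 (mem_ball_self hs)]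

/-- the modulus of the model map -/
noncomputable def qm (a : ℂ) (n : ℕ) (r : ℝ) : ℝ := ‖a‖ * r ^ (n + 1)

theorem norm_QQ (a : ℂ) (n N : ℕ) (w : ℂ) :
    ‖(fun w : ℂ => a * w ^ (n + 1))^[N] w‖ = (qm a n)^[N] ‖w‖ := by
  induction N with
  | zero => rfl
  | succ N ih =>
    rw [Function.iterate_succ_apply', Function.iterate_succ_apply', ← ih, norm_mul, norm_pow]
    rfl

theorem qm_nonneg (a : ℂ) (n N : ℕ) {r : ℝ} (hr : 0 ≤ r) : 0 ≤ (qm a n)^[N] r := by
  induction N with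
  | zero => exact hr
  | succ N ih =>
    rw [Function.iterate_succ_apply']
    unfold qm
    positivity

theorem qm_mono (a : ℂ) (n N : ℕ) {r r' : ℝ} (hr : 0 ≤ r) (h : r ≤ r') :
    (qm a n)^[N] r ≤ (qm a n)^[N] r' := by
  induction N with
  | zero => exact h
  | succ N ih =>
    rw [Function.iterate_succ_apply', Function.iterate_succ_apply']
    unfold qm at ih ⊢
    exact mul_le_mul_of_nonneg_left (pow_le_pow_left₀ (qm_nonneg a n N hr) ih _) (norm_nonneg _)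

theorem qm_cont (a : ℂ) (n N : ℕ) : Continuous (qm a n)^[N] := by
  have : Continuous (qm a n) := continuous_const.mul (continuous_pow _)
  exact this.iterate N

theorem qm_small {a : ℂ} {n : ℕ} (hn : 1 ≤ n) {ρ0 : ℝ} (hρ1 : ρ0 ≤ 1)
    (hρa : ‖a‖ * ρ0 ≤ 1) (N : ℕ) {r : ℝ} (hr : 0 ≤ r) (h : r ≤ ρ0) :
    (qm a n)^[N] r ≤ ρ0 := by
  have hρ0 : 0 ≤ ρ0 := hr.trans h
  refine (qm_mono a n N hr h).trans ?_
  induction N with
  | zero => exact le_rfl
  | succ N ih =>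
    rw [Function.iterate_succ_apply]
    refine (qm_mono a n N (by unfold qm; positivity) ?_).trans ih
    unfold qm
    have h1 : ρ0 ^ (n + 1) ≤ ρ0 ^ 2 := pow_le_pow_of_le_one hρ0 hρ1 (by omega)
    calc ‖a‖ * ρ0 ^ (n + 1) ≤ ‖a‖ * ρ0 ^ 2 := mul_le_mul_of_nonneg_left h1 (norm_nonneg _)
      _ = (‖a‖ * ρ0) * ρ0 := by ring
      _ ≤ 1 * ρ0 := mul_le_mul_of_nonneg_right hρa hρ0
      _ = ρ0 := one_mul _

section
variable {a : ℂ} {n : ℕ} {B Rb C₁ R₁ R₃ : ℝ} {ψ φ : PE n × ℂ → ℂ}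

theorem qm_large (hb : BO a n B Rb C₁ R₁ R₃ ψ φ) (N : ℕ) {r : ℝ} (h : R₁ < r) :
    r ≤ (qm a n)^[N] r := by
  have hR := hb.hR
  have hC := hb.hC
  have hR₁ := hb.hR₁
  have hr : 0 < r := by linarith
  induction N with
  | zero => exact le_rfl
  | succ N ih =>
    rw [Function.iterate_succ_apply']
    have h1 : R₁ < (qm a n)^[N] r := h.trans_le ih
    have h2 := hb.pw (((qm a n)^[N] r : ℝ) : ℂ) (by
      rw [Complex.norm_real, Real.norm_eq_abs, abs_of_pos (hr.trans_le ih)]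
      exact h1)
    rw [norm_mul, norm_pow, Complex.norm_real, Real.norm_eq_abs,
      abs_of_pos (hr.trans_le ih)] at h2
    show r ≤ ‖a‖ * ((qm a n)^[N] r) ^ (n + 1)
    have := hr.trans_le ih
    linarith

/-- the radii at infinity -/
theorem exists_radii (hb : BO a n B Rb C₁ R₁ R₃ ψ φ) (hn : 1 ≤ n) {R₄ ρ0 : ℝ} (hR₄ : 1 < R₄)
    (hρ1 : ρ0 ≤ 1) (hρa : ‖a‖ * ρ0 ≤ 1) (N : ℕ) :
    ∃ ρ4 ρ5 : ℝ, ρ0 < ρ4 ∧ ρ4 < ρ5 ∧ ρ5 ≤ max R₁ (R₄ + 1) + 1 ∧
      (qm a n)^[N] ρ4 = R₄ ∧ (qm a n)^[N] ρ5 = R₄ + 1 := by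
  set ρM : ℝ := max R₁ (R₄ + 1) + 1 with hρM
  have h1 : R₁ < ρM := by have := le_max_left R₁ (R₄ + 1); linarith
  have h2 : R₄ + 1 < ρM := by have := le_max_right R₁ (R₄ + 1); linarith
  have h0 : 0 ≤ ρM := by linarith
  have h3 : R₄ + 1 ≤ (qm a n)^[N] ρM := h2.le.trans (qm_large hb N h1)
  have h4 : (qm a n)^[N] 0 ≤ R₄ := by
    have := qm_small (a := a) (n := n) hn (ρ0 := 0) zero_le_one (by simp) N le_rfl le_rfl
    linarith
  have hiv := intermediate_value_Icc h0 (qm_cont a n N).continuousOn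
  obtain ⟨ρ4, hρ4, e4⟩ := hiv (show R₄ ∈ Icc _ _ from ⟨h4, by linarith⟩)
  obtain ⟨ρ5, hρ5, e5⟩ := hiv (show R₄ + 1 ∈ Icc _ _ from ⟨by linarith, h3⟩)
  refine ⟨ρ4, ρ5, ?_, ?_, hρ5.2, e4, e5⟩
  · by_contra hcon
    push Not at hcon
    have := qm_small hn hρ1 hρa N hρ4.1 hcon
    rw [e4] at this
    linarith
  · by_contra hcon
    push Not at hcon
    have := qm_mono a n N hρ5.1 hcon
    rw [e4, e5] at this
    linarith

/-- openness of the parameter domain -/
theorem isOpen_OmN (a : ℂ) (n N : ℕ) (B R : ℝ) : IsOpen (W820.BM.OmN a n N B R) := by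
  have h1 : W820.BM.OmN a n N B R = ball (0 : PE n) B ∩ ⋂ i : Fin n, ⋂ j ∈ Finset.Icc 1 N,
      {x : PE n | ‖(fx a n x)^[j] (x (some i))‖ < R} := by
    ext x
    simp only [W820.BM.OmN, mem_ofPred_eq, mem_inter_iff, mem_iInter, Finset.mem_Icc, and_imp]
  rw [h1]
  refine isOpen_ball.inter (isOpen_iInter_of_finite fun i => isOpen_biInter_finset fun j _ => ?_)
  refine isOpen_lt (Continuous.norm ?_) continuous_const
  have h2 := (contDiff_fx a n j).continuous
  have h3 : Continuous fun x : PE n => ((x, x (some i)) : PE n × ℂ) :=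
    continuous_id.prodMk (continuous_apply (some i))
  have h4 : (fun x : PE n => (fx a n x)^[j] (x (some i))) =
      (fun p : PE n × ℂ => (fx a n p.1)^[j] p.2) ∘ fun x : PE n => ((x, x (some i)) : PE n × ℂ) := by
    funext x
    rw [Function.comp_apply]
  rw [h4]
  generalize (fun p : PE n × ℂ => (fx a n p.1)^[j] p.2) = F at h2
  exact h2.comp h3

theorem KJ_fin (hb : BO a n B Rb C₁ R₁ R₃ ψ φ) {x : PE n} (hx : x ∈ ball (0 : PE n) B) :
    volume (KJ (fam a n x)) < ⊤ := by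
  refine lt_of_le_of_lt (measure_mono (t := ball (0 : ℂ) Rb) fun z hz => ?_) measure_ball_lt_top
  rw [mem_ball_zero_iff]
  exact lt_of_mem_KJ hb hx hz 0

/-- moduli double along large orbits -/
theorem doubling (hb : BO a n B Rb C₁ R₁ R₃ ψ φ) {x : PE n} (hx : x ∈ ball (0 : PE n) B)
    {y : ℂ} (hy : R₃ < ‖y‖) (k : ℕ) : 2 ^ k * R₃ < ‖(fx a n x)^[k] y‖ := by
  have h1 := hb.hR; have h2 := hb.hC; have h3 := hb.hR₁; have h4 := hb.hR₃
  induction k with
  | zero =>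
    rw [pow_zero, one_mul, Function.iterate_zero_apply]
    exact hy
  | succ k ih =>
    rw [Function.iterate_succ_apply']
    have e3 : R₃ < ‖(fx a n x)^[k] y‖ := large_of_large hb hx hy k
    generalize (fx a n x)^[k] y = u at ih e3
    have e4 := hb.esc x (mem_ball_zero_iff.mp hx).le u (show Rb ≤ _ by linarith)
    rw [pow_succ]
    linarith

/-- sublevel sets for a higher level -/
theorem exists_vol (hb : BO a n B Rb C₁ R₁ R₃ ψ φ) {x : PE n} (hx : x ∈ ball (0 : PE n) B)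
    {η : ℝ} (hη : 0 < η) (R₆ : ℝ) : ∃ N : ℕ, volume {z : ℂ | ‖(fx a n x)^[N] z‖ ≤ R₆} ≤
      volume (KJ (fam a n x)) + ENNReal.ofReal η := by
  have h1 := hb.hR; have h2 := hb.hC; have h3 := hb.hR₁; have h4 := hb.hR₃
  obtain ⟨N, hN⟩ := exists_level_vol hb hx hη
  obtain ⟨m, hm⟩ := pow_unbounded_of_one_lt (R₆ / R₃) (by norm_num : (1 : ℝ) < 2)
  have hR30 : 0 < R₃ := by linarith
  rw [div_lt_iff₀ hR30] at hm
  have hsub : {z : ℂ | ‖(fx a n x)^[m + N] z‖ ≤ R₆} ⊆ {z : ℂ | ‖(fx a n x)^[N] z‖ ≤ R₃} := by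
    intro z hz
    rw [mem_ofPred_eq] at hz ⊢
    by_contra hcon
    rw [not_le] at hcon
    have e5 := doubling hb hx hcon m
    rw [← Function.iterate_add_apply] at e5
    linarith
  exact ⟨m + N, (measure_mono hsub).trans hN⟩

/-- the centre of the critical points and the coefficient of degree `n` -/
theorem coeff_n {x y : PE n} (hn : 1 ≤ n)
    (h : ∑ i : Fin n, x (some i) = ∑ i : Fin n, y (some i)) :
    (fam a n x).coeff n = (fam a n y).coeff n := by
  obtain ⟨m, rfl⟩ : ∃ m, n = m + 1 := ⟨n - 1, by omega⟩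
  rw [coeff_fam_succ, coeff_fam_succ]
  have h1 : ∀ z : PE (m + 1), (dfam a (m + 1) z).coeff m =
      a * (((m + 1 : ℕ) : ℂ) + 1) * (-∑ i, z (some i)) := by
    intro z
    unfold dfam
    rw [coeff_C_mul]
    congr 1
    have := Polynomial.prod_X_sub_C_coeff_card_pred (Finset.univ : Finset (Fin (m + 1)))
      (fun i => z (some i)) (by simp)
    simpa using this
  rw [h1, h1, h]

end

end Pool.Agent.W177.BM
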